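import Mathlib

/-! A 52-vertex counterexample to the inverse domination conjecture (Kulli-Sigarkanti 1991).

Gadget: H = two complements of the Wagner graph (Moebius ladder M_8), a K_4 and an isolated vertex, with
five labels; the five label vertices form a clique, each joined to the vertices of H with its label.
Two copies, with the ten label vertices forming one clique D. Then D is the unique minimum dominating set
(gamma = 10), the independence number is 13, and each dominating set disjoint from D has at least 14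
vertices. -/


set_option autoImplicit false

namespace Pool.Agent.H479Inv

def nb : Fin 26 → List (Fin 26) := ![
  [1, 2, 3, 4, 5, 9, 21],
  [0, 2, 3, 4, 7, 11, 22],
  [0, 1, 3, 4, 13, 17, 23],
  [0, 1, 2, 4, 15, 19, 24],
  [0, 1, 2, 3, 6, 8, 10, 12, 14, 16, 18, 20, 25],
  [0, 7, 8, 10, 11],
  [4, 8, 9, 11, 12],
  [1, 5, 9, 10, 12],
  [4, 5, 6, 10, 11],
  [0, 6, 7, 11, 12],
  [4, 5, 7, 8, 12],
  [1, 5, 6, 8, 9],
  [4, 6, 7, 9, 10],
  [2, 15, 16, 18, 19],
  [4, 16, 17, 19, 20],
  [3, 13, 17, 18, 20],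
  [4, 13, 14, 18, 19],
  [2, 14, 15, 19, 20],
  [4, 13, 15, 16, 20],
  [3, 13, 14, 16, 17],
  [4, 14, 15, 17, 18],
  [0, 22, 23, 24],
  [1, 21, 23, 24],
  [2, 21, 22, 24],
  [3, 21, 22, 23],
  [4]]

theorem nb_symm : ∀ i j : Fin 26, j ∈ nb i → i ∈ nb j := by decide +kernel

theorem nb_irrefl : ∀ i : Fin 26, i ∉ nb i := by decide +kernel

/-- The 52-vertex graph: two copies of the 26-vertex graph, the ten vertices `(c, i)` with `i < 5`
forming a clique. -/
def G : SimpleGraph (Bool × Fin 26) where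
  Adj p q := (p.1 = q.1 ∧ q.2 ∈ nb p.2) ∨ (p.1 ≠ q.1 ∧ p.2 < 5 ∧ q.2 < 5)
  symm := by
    constructor
    rintro ⟨a, i⟩ ⟨b, j⟩ h
    rcases h with ⟨h1, h2⟩ | ⟨h1, h2, h3⟩
    · exact Or.inl ⟨h1.symm, nb_symm _ _ h2⟩
    · exact Or.inr ⟨fun h => h1 h.symm, h3, h2⟩
  loopless := by
    constructor
    rintro ⟨a, i⟩ h
    rcases h with ⟨-, h2⟩ | ⟨h1, -, -⟩
    · exact nb_irrefl _ h2
    · exact h1 rfl

theorem nb_ne_nil : ∀ i : Fin 26, ∃ j, j ∈ nb i := by decide +kernel

theorem no_isolated : ∀ v, ∃ u, G.Adj v u := by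
  rintro ⟨c, i⟩
  obtain ⟨j, hj⟩ := nb_ne_nil i
  exact ⟨(c, j), Or.inl ⟨rfl, hj⟩⟩

/-- number of ones -/
def cnt (x : Fin 26 → Bool) : ℕ := ∑ i, (x i).toNat

theorem cnt_eq (x : Fin 26 → Bool) : cnt x =
    (x 0).toNat + (x 1).toNat + (x 2).toNat + (x 3).toNat + (x 4).toNat
    + ((x 5).toNat + (x 6).toNat + (x 7).toNat + (x 8).toNat + (x 9).toNat + (x 10).toNat
      + (x 11).toNat + (x 12).toNat)
    + ((x 13).toNat + (x 14).toNat + (x 15).toNat + (x 16).toNat + (x 17).toNat + (x 18).toNat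
      + (x 19).toNat + (x 20).toNat)
    + ((x 21).toNat + (x 22).toNat + (x 23).toNat + (x 24).toNat) + (x 25).toNat := by
  unfold cnt
  simp only [Fin.sum_univ_succ, Fin.sum_univ_zero]
  norm_num [Fin.succ]
  ring_nf
  rfl

theorem blkD_b : ∀ t0 t1 t4 x0 x1 x2 x3 x4 x5 x6 x7 : Bool,
    ((x0 || t0 || x2 || x3 || x5 || x6) &&
      (x1 || t4 || x3 || x4 || x6 || x7) &&
      (x2 || t1 || x0 || x4 || x5 || x7) &&
      (x3 || t4 || x0 || x1 || x5 || x6) &&
      (x4 || t0 || x1 || x2 || x6 || x7) &&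
      (x5 || t4 || x0 || x2 || x3 || x7) &&
      (x6 || t1 || x0 || x1 || x3 || x4) &&
      (x7 || t4 || x1 || x2 || x4 || x5)) = true →
    (decide (2 ≤ (x0.toNat + x1.toNat + x2.toNat + x3.toNat + x4.toNat + x5.toNat + x6.toNat + x7.toNat)) || (t4 && decide (2 ≤ (x0.toNat + x1.toNat + x2.toNat + x3.toNat + x4.toNat + x5.toNat + x6.toNat + x7.toNat) + t0.toNat + t1.toNat))) = true := by decide +kernel

theorem blkD (t0 t1 t4 x0 x1 x2 x3 x4 x5 x6 x7 : Bool)
    (h0 : (x0 = true ∨ t0 = true ∨ x2 = true ∨ x3 = true ∨ x5 = true ∨ x6 = true))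
    (h1 : (x1 = true ∨ t4 = true ∨ x3 = true ∨ x4 = true ∨ x6 = true ∨ x7 = true))
    (h2 : (x2 = true ∨ t1 = true ∨ x0 = true ∨ x4 = true ∨ x5 = true ∨ x7 = true))
    (h3 : (x3 = true ∨ t4 = true ∨ x0 = true ∨ x1 = true ∨ x5 = true ∨ x6 = true))
    (h4 : (x4 = true ∨ t0 = true ∨ x1 = true ∨ x2 = true ∨ x6 = true ∨ x7 = true))
    (h5 : (x5 = true ∨ t4 = true ∨ x0 = true ∨ x2 = true ∨ x3 = true ∨ x7 = true))
    (h6 : (x6 = true ∨ t1 = true ∨ x0 = true ∨ x1 = true ∨ x3 = true ∨ x4 = true))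
    (h7 : (x7 = true ∨ t4 = true ∨ x1 = true ∨ x2 = true ∨ x4 = true ∨ x5 = true))
    : (2 ≤ (x0.toNat + x1.toNat + x2.toNat + x3.toNat + x4.toNat + x5.toNat + x6.toNat + x7.toNat) ∨ (t4 = true ∧ 2 ≤ (x0.toNat + x1.toNat + x2.toNat + x3.toNat + x4.toNat + x5.toNat + x6.toNat + x7.toNat) + t0.toNat + t1.toNat)) := by
  have h := blkD_b t0 t1 t4 x0 x1 x2 x3 x4 x5 x6 x7 (by
    simp only [Bool.or_eq_true, Bool.and_eq_true, Bool.not_eq_true', or_assoc, and_assoc]
    exact ⟨h0, h1, h2, h3, h4, h5, h6, h7⟩)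
  simpa using h

theorem blkS_b : ∀ x0 x1 x2 x3 x4 x5 x6 x7 : Bool,
    ((x0 || x2 || x3 || x5 || x6) &&
      (x1 || x3 || x4 || x6 || x7) &&
      (x2 || x0 || x4 || x5 || x7) &&
      (x3 || x0 || x1 || x5 || x6) &&
      (x4 || x1 || x2 || x6 || x7) &&
      (x5 || x0 || x2 || x3 || x7) &&
      (x6 || x0 || x1 || x3 || x4) &&
      (x7 || x1 || x2 || x4 || x5)) = true →
    (decide (2 ≤ (x0.toNat + x1.toNat + x2.toNat + x3.toNat + x4.toNat + x5.toNat + x6.toNat + x7.toNat) + 0) && (!((x0 || x4) && (x2 || x6)) || decide (3 ≤ (x0.toNat + x1.toNat + x2.toNat + x3.toNat + x4.toNat + x5.toNat + x6.toNat + x7.toNat)))) = true := by decide +kernel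

theorem blkS (x0 x1 x2 x3 x4 x5 x6 x7 : Bool)
    (h0 : (x0 = true ∨ x2 = true ∨ x3 = true ∨ x5 = true ∨ x6 = true))
    (h1 : (x1 = true ∨ x3 = true ∨ x4 = true ∨ x6 = true ∨ x7 = true))
    (h2 : (x2 = true ∨ x0 = true ∨ x4 = true ∨ x5 = true ∨ x7 = true))
    (h3 : (x3 = true ∨ x0 = true ∨ x1 = true ∨ x5 = true ∨ x6 = true))
    (h4 : (x4 = true ∨ x1 = true ∨ x2 = true ∨ x6 = true ∨ x7 = true))
    (h5 : (x5 = true ∨ x0 = true ∨ x2 = true ∨ x3 = true ∨ x7 = true))
    (h6 : (x6 = true ∨ x0 = true ∨ x1 = true ∨ x3 = true ∨ x4 = true))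
    (h7 : (x7 = true ∨ x1 = true ∨ x2 = true ∨ x4 = true ∨ x5 = true))
    : (2 ≤ (x0.toNat + x1.toNat + x2.toNat + x3.toNat + x4.toNat + x5.toNat + x6.toNat + x7.toNat) ∧ ((x0 = false ∧ x4 = false ∨ x2 = false ∧ x6 = false) ∨ 3 ≤ (x0.toNat + x1.toNat + x2.toNat + x3.toNat + x4.toNat + x5.toNat + x6.toNat + x7.toNat))) := by
  have h := blkS_b x0 x1 x2 x3 x4 x5 x6 x7 (by
    simp only [Bool.or_eq_true, Bool.and_eq_true, Bool.not_eq_true', or_assoc, and_assoc]
    exact ⟨h0, h1, h2, h3, h4, h5, h6, h7⟩)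
  simpa using h

theorem blkI_b : ∀ x0 x1 x2 x3 x4 x5 x6 x7 : Bool,
    ((!(x0 && x2)) &&
      (!(x0 && x3)) &&
      (!(x0 && x5)) &&
      (!(x0 && x6)) &&
      (!(x1 && x3)) &&
      (!(x1 && x4)) &&
      (!(x1 && x6)) &&
      (!(x1 && x7)) &&
      (!(x2 && x4)) &&
      (!(x2 && x5)) &&
      (!(x2 && x7)) &&
      (!(x3 && x5)) &&
      (!(x3 && x6)) &&
      (!(x4 && x6)) &&
      (!(x4 && x7)) &&
      (!(x5 && x7))) = true →
    decide ((x0.toNat + x1.toNat + x2.toNat + x3.toNat + x4.toNat + x5.toNat + x6.toNat + x7.toNat) ≤ 2) = true := by decide +kernel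

theorem blkI (x0 x1 x2 x3 x4 x5 x6 x7 : Bool)
    (h0 : (x0 && x2) = false)
    (h1 : (x0 && x3) = false)
    (h2 : (x0 && x5) = false)
    (h3 : (x0 && x6) = false)
    (h4 : (x1 && x3) = false)
    (h5 : (x1 && x4) = false)
    (h6 : (x1 && x6) = false)
    (h7 : (x1 && x7) = false)
    (h8 : (x2 && x4) = false)
    (h9 : (x2 && x5) = false)
    (h10 : (x2 && x7) = false)
    (h11 : (x3 && x5) = false)
    (h12 : (x3 && x6) = false)
    (h13 : (x4 && x6) = false)
    (h14 : (x4 && x7) = false)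
    (h15 : (x5 && x7) = false)
    : (x0.toNat + x1.toNat + x2.toNat + x3.toNat + x4.toNat + x5.toNat + x6.toNat + x7.toNat) ≤ 2 := by
  have h := blkI_b x0 x1 x2 x3 x4 x5 x6 x7 (by
    simp only [Bool.or_eq_true, Bool.and_eq_true, Bool.not_eq_true', or_assoc, and_assoc]
    exact ⟨h0, h1, h2, h3, h4, h5, h6, h7, h8, h9, h10, h11, h12, h13, h14, h15⟩)
  simpa using h

/-- domination inside one copy, for the vertices with index at least 5 -/
def DomH (x : Fin 26 → Bool) : Prop := ∀ i : Fin 26, 5 ≤ i → (x i = true ∨ ∃ j ∈ nb i, x j = true)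

theorem domH_expl (x : Fin 26 → Bool) (h : DomH x) :
    (x 5 = true ∨ x 0 = true ∨ x 7 = true ∨ x 8 = true ∨ x 10 = true ∨ x 11 = true) ∧
    (x 6 = true ∨ x 4 = true ∨ x 8 = true ∨ x 9 = true ∨ x 11 = true ∨ x 12 = true) ∧
    (x 7 = true ∨ x 1 = true ∨ x 5 = true ∨ x 9 = true ∨ x 10 = true ∨ x 12 = true) ∧
    (x 8 = true ∨ x 4 = true ∨ x 5 = true ∨ x 6 = true ∨ x 10 = true ∨ x 11 = true) ∧
    (x 9 = true ∨ x 0 = true ∨ x 6 = true ∨ x 7 = true ∨ x 11 = true ∨ x 12 = true) ∧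
    (x 10 = true ∨ x 4 = true ∨ x 5 = true ∨ x 7 = true ∨ x 8 = true ∨ x 12 = true) ∧
    (x 11 = true ∨ x 1 = true ∨ x 5 = true ∨ x 6 = true ∨ x 8 = true ∨ x 9 = true) ∧
    (x 12 = true ∨ x 4 = true ∨ x 6 = true ∨ x 7 = true ∨ x 9 = true ∨ x 10 = true) ∧
    (x 13 = true ∨ x 2 = true ∨ x 15 = true ∨ x 16 = true ∨ x 18 = true ∨ x 19 = true) ∧
    (x 14 = true ∨ x 4 = true ∨ x 16 = true ∨ x 17 = true ∨ x 19 = true ∨ x 20 = true) ∧
    (x 15 = true ∨ x 3 = true ∨ x 13 = true ∨ x 17 = true ∨ x 18 = true ∨ x 20 = true) ∧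
    (x 16 = true ∨ x 4 = true ∨ x 13 = true ∨ x 14 = true ∨ x 18 = true ∨ x 19 = true) ∧
    (x 17 = true ∨ x 2 = true ∨ x 14 = true ∨ x 15 = true ∨ x 19 = true ∨ x 20 = true) ∧
    (x 18 = true ∨ x 4 = true ∨ x 13 = true ∨ x 15 = true ∨ x 16 = true ∨ x 20 = true) ∧
    (x 19 = true ∨ x 3 = true ∨ x 13 = true ∨ x 14 = true ∨ x 16 = true ∨ x 17 = true) ∧
    (x 20 = true ∨ x 4 = true ∨ x 14 = true ∨ x 15 = true ∨ x 17 = true ∨ x 18 = true) ∧
    (x 21 = true ∨ x 0 = true ∨ x 22 = true ∨ x 23 = true ∨ x 24 = true) ∧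
    (x 22 = true ∨ x 1 = true ∨ x 21 = true ∨ x 23 = true ∨ x 24 = true) ∧
    (x 23 = true ∨ x 2 = true ∨ x 21 = true ∨ x 22 = true ∨ x 24 = true) ∧
    (x 24 = true ∨ x 3 = true ∨ x 21 = true ∨ x 22 = true ∨ x 23 = true) ∧
    (x 25 = true ∨ x 4 = true) := by
  refine ⟨?_, ?_, ?_, ?_, ?_, ?_, ?_, ?_, ?_, ?_, ?_, ?_, ?_, ?_, ?_, ?_, ?_, ?_, ?_, ?_, ?_⟩
  · simpa [nb] using h 5 (by decide)
  · simpa [nb] using h 6 (by decide)
  · simpa [nb] using h 7 (by decide)
  · simpa [nb] using h 8 (by decide)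
  · simpa [nb] using h 9 (by decide)
  · simpa [nb] using h 10 (by decide)
  · simpa [nb] using h 11 (by decide)
  · simpa [nb] using h 12 (by decide)
  · simpa [nb] using h 13 (by decide)
  · simpa [nb] using h 14 (by decide)
  · simpa [nb] using h 15 (by decide)
  · simpa [nb] using h 16 (by decide)
  · simpa [nb] using h 17 (by decide)
  · simpa [nb] using h 18 (by decide)
  · simpa [nb] using h 19 (by decide)
  · simpa [nb] using h 20 (by decide)
  · simpa [nb] using h 21 (by decide)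
  · simpa [nb] using h 22 (by decide)
  · simpa [nb] using h 23 (by decide)
  · simpa [nb] using h 24 (by decide)
  · simpa [nb] using h 25 (by decide)

theorem bt {b : Bool} (h : b = false) : b.toNat = 0 := by rw [h]; rfl
theorem btt {b : Bool} (h : b = true) : b.toNat = 1 := by rw [h]; rfl
theorem ble (b : Bool) : b.toNat ≤ 1 := by cases b <;> decide
theorem bcase (b : Bool) : (b = true ∧ b.toNat = 1) ∨ (b = false ∧ b.toNat = 0) := by
  cases b <;> simp

/-- A set dominating the part `5 ≤ i` of a copy has at least five vertices, and at least six unless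
it contains the five vertices with `i < 5`. -/
theorem copyD (x : Fin 26 → Bool) (h : DomH x) :
    5 ≤ cnt x ∧ (cnt x ≤ 5 → x 0 = true ∧ x 1 = true ∧ x 2 = true ∧ x 3 = true ∧ x 4 = true) := by
  obtain ⟨h5, h6, h7, h8, h9, h10, h11, h12, h13, h14, h15, h16, h17, h18, h19, h20, h21, h22, h23,
    h24, h25⟩ := domH_expl x h
  have hA := blkD (x 0) (x 1) (x 4) (x 5) (x 6) (x 7) (x 8) (x 9) (x 10) (x 11) (x 12)
    h5 h6 h7 h8 h9 h10 h11 h12
  have hB := blkD (x 2) (x 3) (x 4) (x 13) (x 14) (x 15) (x 16) (x 17) (x 18) (x 19) (x 20)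
    h13 h14 h15 h16 h17 h18 h19 h20
  have hK : 1 ≤ (x 21).toNat + (x 22).toNat + (x 23).toNat + (x 24).toNat ∨
      (x 0 = true ∧ x 1 = true ∧ x 2 = true ∧ x 3 = true) := by
    rcases h21 with h | h | h | h | h
    · left; rw [btt h]; omega
    · rcases h22 with g | g | g | g | g
      · left; rw [btt g]; omega
      · rcases h23 with k | k | k | k | k
        · left; rw [btt k]; omega
        · rcases h24 with l | l | l | l | l
          · left; rw [btt l]; omega
          · right; exact ⟨h, g, k, l⟩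
          · left; rw [btt l]; omega
          · left; rw [btt l]; omega
          · left; rw [btt l]; omega
        · left; rw [btt k]; omega
        · left; rw [btt k]; omega
        · left; rw [btt k]; omega
      · left; rw [btt g]; omega
      · left; rw [btt g]; omega
      · left; rw [btt g]; omega
    · left; rw [btt h]; omega
    · left; rw [btt h]; omega
    · left; rw [btt h]; omega
  have hc := cnt_eq x
  have c0 := bcase (x 0)
  have c1 := bcase (x 1)
  have c2 := bcase (x 2)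
  have c3 := bcase (x 3)
  have c4 := bcase (x 4)
  have c25 := bcase (x 25)
  rcases c0 with ⟨c0, d0⟩ | ⟨c0, d0⟩ <;> rcases c1 with ⟨c1, d1⟩ | ⟨c1, d1⟩ <;>
  rcases c2 with ⟨c2, d2⟩ | ⟨c2, d2⟩ <;> rcases c3 with ⟨c3, d3⟩ | ⟨c3, d3⟩ <;>
  rcases c4 with ⟨c4, d4⟩ | ⟨c4, d4⟩ <;> rcases c25 with ⟨c25, d25⟩ | ⟨c25, d25⟩ <;>
  simp only [c0, c1, c2, c3, c4, c25, d0, d1, d2, d3, d4, d25, Bool.toNat_true, Bool.toNat_false,
    true_and, and_true, false_and, and_false, or_false, false_or, Bool.false_eq_true, or_self,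
    reduceCtorEq, true_or, imp_false, not_le, imp_true_iff] at hA hB hK hc h25 ⊢ <;>
  omega


/-- A dominating set avoiding the five vertices `i < 5` has at least seven vertices in a copy. -/
theorem copyS (x : Fin 26 → Bool) (h : ∀ i : Fin 26, (x i = true ∨ ∃ j ∈ nb i, x j = true))
    (h0 : ∀ i : Fin 26, i < 5 → x i = false) : 7 ≤ cnt x := by
  obtain ⟨h5, h6, h7, h8, h9, h10, h11, h12, h13, h14, h15, h16, h17, h18, h19, h20, h21, h22, h23,
    h24, h25⟩ := domH_expl x (fun i _ => h i)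
  have z0 := h0 0 (by decide)
  have z1 := h0 1 (by decide)
  have z2 := h0 2 (by decide)
  have z3 := h0 3 (by decide)
  have z4 := h0 4 (by decide)
  have g0 := h 0
  have g1 := h 1
  have g2 := h 2
  have g3 := h 3
  simp only [nb, Matrix.cons_val, List.mem_cons, List.not_mem_nil, or_false, exists_eq_or_imp,
    exists_eq_left, z0, z1, z2, z3, z4, Bool.false_eq_true, false_or] at g0 g1 g2 g3
  simp only [z0, z1, z2, z3, z4, Bool.false_eq_true, false_or, or_false] at h5 h6 h7 h8 h9 h10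
  simp only [z0, z1, z2, z3, z4, Bool.false_eq_true, false_or, or_false] at h11 h12 h13 h14 h15
  simp only [z0, z1, z2, z3, z4, Bool.false_eq_true, false_or, or_false] at h16 h17 h18 h19 h20
  simp only [z0, z1, z2, z3, z4, Bool.false_eq_true, false_or, or_false] at h25
  have hA := blkS (x 5) (x 6) (x 7) (x 8) (x 9) (x 10) (x 11) (x 12)
    h5 h6 h7 h8 h9 h10 h11 h12
  have hB := blkS (x 13) (x 14) (x 15) (x 16) (x 17) (x 18) (x 19) (x 20)
    h13 h14 h15 h16 h17 h18 h19 h20
  have hc := cnt_eq x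
  rw [bt z0, bt z1, bt z2, bt z3, bt z4, btt h25] at hc
  -- number of labels covered by the 4-clique
  have e1 : x 5 = false ∧ x 9 = false → 1 ≤ (x 21).toNat := by
    rintro ⟨a, b⟩
    rcases g0 with g | g | g
    · rw [a] at g; exact absurd g (by decide)
    · rw [b] at g; exact absurd g (by decide)
    · rw [btt g]
  have e2 : x 7 = false ∧ x 11 = false → 1 ≤ (x 22).toNat := by
    rintro ⟨a, b⟩
    rcases g1 with g | g | g
    · rw [a] at g; exact absurd g (by decide)
    · rw [b] at g; exact absurd g (by decide)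
    · rw [btt g]
  have e3 : x 13 = false ∧ x 17 = false → 1 ≤ (x 23).toNat := by
    rintro ⟨a, b⟩
    rcases g2 with g | g | g
    · rw [a] at g; exact absurd g (by decide)
    · rw [b] at g; exact absurd g (by decide)
    · rw [btt g]
  have e4 : x 15 = false ∧ x 19 = false → 1 ≤ (x 24).toNat := by
    rintro ⟨a, b⟩
    rcases g3 with g | g | g
    · rw [a] at g; exact absurd g (by decide)
    · rw [b] at g; exact absurd g (by decide)
    · rw [btt g]
  have hK : 1 ≤ (x 21).toNat + (x 22).toNat + (x 23).toNat + (x 24).toNat := by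
    simp only [z0, Bool.false_eq_true, false_or] at h21
    rcases h21 with h | h | h | h <;> rw [btt h] <;> omega
  obtain ⟨hA1, hA2⟩ := hA
  obtain ⟨hB1, hB2⟩ := hB
  rcases hA2 with (a | a) | a <;> rcases hB2 with (b | b) | b
  · have := e1 a; have := e3 b; omega
  · have := e1 a; have := e4 b; omega
  · omega
  · have := e2 a; have := e3 b; omega
  · have := e2 a; have := e4 b; omega
  · omega
  · omega
  · omega
  · omega

/-- An independent set has at most six vertices `5 ≤ i` in a copy. -/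
theorem copyI (x : Fin 26 → Bool) (h : ∀ i j : Fin 26, j ∈ nb i → (x i && x j) = false) :
    cnt x ≤ (x 0).toNat + (x 1).toNat + (x 2).toNat + (x 3).toNat + (x 4).toNat + 6 := by
  have hA := blkI (x 5) (x 6) (x 7) (x 8) (x 9) (x 10) (x 11) (x 12)
    (h _ _ (by decide)) (h _ _ (by decide)) (h _ _ (by decide)) (h _ _ (by decide))
    (h _ _ (by decide)) (h _ _ (by decide)) (h _ _ (by decide)) (h _ _ (by decide))
    (h _ _ (by decide)) (h _ _ (by decide)) (h _ _ (by decide)) (h _ _ (by decide))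
    (h _ _ (by decide)) (h _ _ (by decide)) (h _ _ (by decide)) (h _ _ (by decide))
  have hB := blkI (x 13) (x 14) (x 15) (x 16) (x 17) (x 18) (x 19) (x 20)
    (h _ _ (by decide)) (h _ _ (by decide)) (h _ _ (by decide)) (h _ _ (by decide))
    (h _ _ (by decide)) (h _ _ (by decide)) (h _ _ (by decide)) (h _ _ (by decide))
    (h _ _ (by decide)) (h _ _ (by decide)) (h _ _ (by decide)) (h _ _ (by decide))
    (h _ _ (by decide)) (h _ _ (by decide)) (h _ _ (by decide)) (h _ _ (by decide))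
  have k1 := h 21 22 (by decide)
  have k2 := h 21 23 (by decide)
  have k3 := h 21 24 (by decide)
  have k4 := h 22 23 (by decide)
  have k5 := h 22 24 (by decide)
  have k6 := h 23 24 (by decide)
  have hK : (x 21).toNat + (x 22).toNat + (x 23).toNat + (x 24).toNat ≤ 1 := by
    revert k1 k2 k3 k4 k5 k6
    generalize x 21 = a
    generalize x 22 = b
    generalize x 23 = c
    generalize x 24 = d
    revert a b c d
    decide
  have hc := cnt_eq x
  have := ble (x 25)
  omega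

/-- The independence inequality for the two copies together. -/
theorem bothI (x y : Fin 26 → Bool) (hx : ∀ i j : Fin 26, j ∈ nb i → (x i && x j) = false)
    (hy : ∀ i j : Fin 26, j ∈ nb i → (y i && y j) = false)
    (hxy : ∀ i j : Fin 26, i < 5 → j < 5 → (x i && y j) = false) :
    cnt x + cnt y ≤ 13 := by
  have h1 := copyI x hx
  have h2 := copyI y hy
  have key : ∀ a0 a1 a2 a3 a4 b0 b1 b2 b3 b4 : Bool,
      (!(a0 && a1) && !(a0 && a2) && !(a0 && a3) && !(a0 && a4) && !(a1 && a2) && !(a1 && a3)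
      && !(a1 && a4) && !(a2 && a3) && !(a2 && a4) && !(a3 && a4)
      && !(b0 && b1) && !(b0 && b2) && !(b0 && b3) && !(b0 && b4) && !(b1 && b2) && !(b1 && b3)
      && !(b1 && b4) && !(b2 && b3) && !(b2 && b4) && !(b3 && b4)
      && !(a0 && b0) && !(a0 && b1) && !(a0 && b2) && !(a0 && b3) && !(a0 && b4)
      && !(a1 && b0) && !(a1 && b1) && !(a1 && b2) && !(a1 && b3) && !(a1 && b4)
      && !(a2 && b0) && !(a2 && b1) && !(a2 && b2) && !(a2 && b3) && !(a2 && b4)
      && !(a3 && b0) && !(a3 && b1) && !(a3 && b2) && !(a3 && b3) && !(a3 && b4)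
      && !(a4 && b0) && !(a4 && b1) && !(a4 && b2) && !(a4 && b3) && !(a4 && b4)) = true →
      decide (a0.toNat + a1.toNat + a2.toNat + a3.toNat + a4.toNat
        + (b0.toNat + b1.toNat + b2.toNat + b3.toNat + b4.toNat) ≤ 1) = true := by
    decide +kernel
  have := key (x 0) (x 1) (x 2) (x 3) (x 4) (y 0) (y 1) (y 2) (y 3) (y 4) (by
    rw [hx 0 1 (by decide), hx 0 2 (by decide), hx 0 3 (by decide), hx 0 4 (by decide),
      hx 1 2 (by decide), hx 1 3 (by decide), hx 1 4 (by decide), hx 2 3 (by decide),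
      hx 2 4 (by decide), hx 3 4 (by decide),
      hy 0 1 (by decide), hy 0 2 (by decide), hy 0 3 (by decide), hy 0 4 (by decide),
      hy 1 2 (by decide), hy 1 3 (by decide), hy 1 4 (by decide), hy 2 3 (by decide),
      hy 2 4 (by decide), hy 3 4 (by decide),
      hxy 0 0 (by decide) (by decide), hxy 0 1 (by decide) (by decide),
      hxy 0 2 (by decide) (by decide), hxy 0 3 (by decide) (by decide),
      hxy 0 4 (by decide) (by decide),
      hxy 1 0 (by decide) (by decide), hxy 1 1 (by decide) (by decide),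
      hxy 1 2 (by decide) (by decide), hxy 1 3 (by decide) (by decide),
      hxy 1 4 (by decide) (by decide),
      hxy 2 0 (by decide) (by decide), hxy 2 1 (by decide) (by decide),
      hxy 2 2 (by decide) (by decide), hxy 2 3 (by decide) (by decide),
      hxy 2 4 (by decide) (by decide),
      hxy 3 0 (by decide) (by decide), hxy 3 1 (by decide) (by decide),
      hxy 3 2 (by decide) (by decide), hxy 3 3 (by decide) (by decide),
      hxy 3 4 (by decide) (by decide),
      hxy 4 0 (by decide) (by decide), hxy 4 1 (by decide) (by decide),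
      hxy 4 2 (by decide) (by decide), hxy 4 3 (by decide) (by decide),
      hxy 4 4 (by decide) (by decide)]
    rfl)
  rw [decide_eq_true_eq] at this
  omega

/-- membership function of a copy -/
def mem (X : Finset (Bool × Fin 26)) (c : Bool) (i : Fin 26) : Bool := decide ((c, i) ∈ X)

theorem mem_iff (X : Finset (Bool × Fin 26)) (c : Bool) (i : Fin 26) :
    mem X c i = true ↔ (c, i) ∈ X := by simp [mem]

theorem card_eq (X : Finset (Bool × Fin 26)) : X.card = cnt (mem X true) + cnt (mem X false) := by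
  have : X.card = ∑ v : Bool × Fin 26, (mem X v.1 v.2).toNat := by
    rw [Finset.card_eq_sum_ones, ← Finset.sum_subset (Finset.subset_univ X)]
    · apply Finset.sum_congr rfl
      intro v hv
      simp [mem, hv]
    · intro v _ hv
      simp [mem, hv]
  rw [this, Fintype.sum_prod_type]
  simp [cnt]

/-- The clique of the ten special vertices. -/
def D0 : Finset (Bool × Fin 26) := Finset.univ.filter (fun v => v.2 < 5)

theorem D0_card : D0.card = 10 := by decide +kernel

theorem low_nb : ∀ i : Fin 26, 5 ≤ i → ∃ j ∈ nb i, j < 5 := by decide +kernel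

theorem D0_dom : ∀ v, v ∈ D0 ∨ ∃ u ∈ D0, G.Adj v u := by
  rintro ⟨c, i⟩
  by_cases hi : i < 5
  · left; simp [D0, hi]
  · right
    obtain ⟨j, hj, hj5⟩ := low_nb i (not_lt.mp hi)
    exact ⟨(c, j), by simp [D0, hj5], Or.inl ⟨rfl, hj⟩⟩

theorem dom_copy (X : Finset (Bool × Fin 26)) (hX : ∀ v, v ∈ X ∨ ∃ u ∈ X, G.Adj v u) (c : Bool) :
    DomH (mem X c) := by
  intro i hi
  rcases hX (c, i) with h | ⟨⟨c', j⟩, hj, h | h⟩
  · left; exact (mem_iff _ _ _).mpr h
  · right
    obtain ⟨h1, h2⟩ := h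
    simp only at h1 h2
    subst h1
    exact ⟨j, h2, (mem_iff _ _ _).mpr hj⟩
  · exact absurd h.2.1 (not_lt.mpr hi)

theorem main_neg :
    ¬ (∀ (V : Type) [Fintype V] (G : SimpleGraph V),
      (∀ v : V, ∃ u : V, G.Adj v u) →
      ∃ D S : Finset V,
        (∀ v : V, v ∈ D ∨ ∃ u ∈ D, G.Adj v u) ∧
        (∀ D' : Finset V, (∀ v : V, v ∈ D' ∨ ∃ u ∈ D', G.Adj v u) → D.card ≤ D'.card) ∧
        Disjoint S D ∧
        (∀ v : V, v ∈ S ∨ ∃ u ∈ S, G.Adj v u) ∧
        ∃ I : Finset V, G.IsIndepSet (I : Set V) ∧ S.card ≤ I.card) := by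
  intro H
  obtain ⟨D, S, hD, hmin, hdisj, hS, I, hI, hle⟩ := H (Bool × Fin 26) G no_isolated
  -- D contains the clique
  have hD10 : D.card ≤ 10 := D0_card ▸ hmin D0 D0_dom
  rw [card_eq] at hD10
  obtain ⟨ht, ht'⟩ := copyD _ (dom_copy D hD true)
  obtain ⟨hf, hf'⟩ := copyD _ (dom_copy D hD false)
  have Ht := ht' (by omega)
  have Hf := hf' (by omega)
  have hmemD : ∀ (c : Bool) (i : Fin 26), i < 5 → (c, i) ∈ D := by
    intro c i hi
    have : mem D c i = true := by
      have hi' : i = 0 ∨ i = 1 ∨ i = 2 ∨ i = 3 ∨ i = 4 := by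
        revert i; decide
      cases c
      · rcases hi' with rfl | rfl | rfl | rfl | rfl
        · exact Hf.1
        · exact Hf.2.1
        · exact Hf.2.2.1
        · exact Hf.2.2.2.1
        · exact Hf.2.2.2.2
      · rcases hi' with rfl | rfl | rfl | rfl | rfl
        · exact Ht.1
        · exact Ht.2.1
        · exact Ht.2.2.1
        · exact Ht.2.2.2.1
        · exact Ht.2.2.2.2
    exact (mem_iff _ _ _).mp this
  have hSnot : ∀ (c : Bool) (i : Fin 26), i < 5 → (c, i) ∉ S := by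
    intro c i hi h
    exact Finset.disjoint_left.mp hdisj h (hmemD c i hi)
  have hS7 : ∀ c : Bool, 7 ≤ cnt (mem S c) := by
    intro c
    apply copyS
    · intro i
      rcases hS (c, i) with h | ⟨⟨c', j⟩, hj, h | h⟩
      · left; exact (mem_iff _ _ _).mpr h
      · right
        obtain ⟨h1, h2⟩ := h
        simp only at h1 h2
        subst h1
        exact ⟨j, h2, (mem_iff _ _ _).mpr hj⟩
      · exact absurd hj (hSnot c' j h.2.2)
    · intro i hi
      have := hSnot c i hi
      simp [mem, this]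
  have hScard : 14 ≤ S.card := by
    rw [card_eq]
    have := hS7 true
    have := hS7 false
    omega
  have hIcard : I.card ≤ 13 := by
    rw [card_eq]
    have hind : ∀ p q, G.Adj p q → ¬ (p ∈ I ∧ q ∈ I) := by
      rintro p q hpq ⟨hp, hq⟩
      exact hI hp hq (G.ne_of_adj hpq) hpq
    have hcopy : ∀ (c : Bool) (i j : Fin 26), j ∈ nb i → (mem I c i && mem I c j) = false := by
      intro c i j hij
      by_contra hne
      rw [Bool.not_eq_false, Bool.and_eq_true, mem_iff, mem_iff] at hne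
      exact hind (c, i) (c, j) (Or.inl ⟨rfl, hij⟩) hne
    apply bothI _ _ (hcopy true) (hcopy false)
    intro i j hi hj
    by_contra hne
    rw [Bool.not_eq_false, Bool.and_eq_true, mem_iff, mem_iff] at hne
    exact hind (true, i) (false, j) (Or.inr ⟨by simp, hi, hj⟩) hne
  omega

end Pool.Agent.H479Inv
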